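import Pool.Agent.Lib.MP_b5021c_nt.IfaceE2
import Pool.Agent.Lib.MP_b5021c_nt.B.H36.Evr

/-!
# Board b5, row E2_PMF: the Poisson mean of a self-adjoint Laurent polynomial
-/

namespace Pool.Agent.B5.H05

open scoped LaurentPolynomial Topology
open Polynomial
open Pool.Agent.B5 Pool.Agent.B5.H36

section

variable {O : Type} [CommRing O] [Coef O]

theorem rsh_coeff (p : RO O) (k : ℤ) : (rsh p).coeff k = Coef.conj (p.coeff (-k)) := by
  induction p using AddMonoidAlgebra.induction_linear with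
  | zero => simp
  | add f g hf hg =>
    rw [map_add, AddMonoidAlgebra.coeff_add, Finsupp.add_apply, hf, hg,
      AddMonoidAlgebra.coeff_add, Finsupp.add_apply, map_add]
  | single n c =>
    rw [rsh_single, AddMonoidAlgebra.coeff_single, AddMonoidAlgebra.coeff_single]
    by_cases h : n = -k
    · subst h
      rw [neg_neg, Finsupp.single_eq_same, Finsupp.single_eq_same]
    · have h2 : ¬ (-n = k) := fun h3 => h (by omega)
      rw [Finsupp.single_eq_of_ne' h2, Finsupp.single_eq_of_ne' h, map_zero]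

/-- the coefficients of the analytic completion -/
noncomputable def cf (p : RO O) (n : ℕ) : ℂ :=
  if n = 0 then Coef.emb (p.coeff 0) else 2 * Coef.emb (p.coeff (n : ℤ))

/-- the analytic completion, truncated -/
noncomputable def rr (p : RO O) (N : ℕ) : ℂ[X] :=
  ∑ n ∈ Finset.range (N + 1), Polynomial.monomial n (cf p n)

theorem rr_eval (p : RO O) (N : ℕ) (z : ℂ) :
    (rr p N).eval z = ∑ n ∈ Finset.range (N + 1), cf p n * z ^ n := by
  unfold rr
  rw [Polynomial.eval_finsetSum]
  exact Finset.sum_congr rfl fun n _ => by rw [Polynomial.eval_monomial]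

theorem icc_succ (N : ℕ) : Finset.Icc (-((N + 1 : ℕ) : ℤ)) ((N + 1 : ℕ) : ℤ) =
    insert ((N + 1 : ℕ) : ℤ) (insert (-((N + 1 : ℕ) : ℤ)) (Finset.Icc (-(N : ℤ)) (N : ℤ))) := by
  ext x
  simp only [Finset.mem_Icc, Finset.mem_insert]
  push_cast
  omega

theorem re_sum (p : RO O) (hp : rsh p = p) (z : ℂ) (hz : ‖z‖ = 1) (N : ℕ) :
    (∑ n ∈ Finset.Icc (-(N : ℤ)) (N : ℤ), Coef.emb (p.coeff n) * z ^ n).re =
      (∑ n ∈ Finset.range (N + 1), cf p n * z ^ n).re := by
  have hz0 : z ≠ 0 := by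
    intro h
    rw [h, norm_zero] at hz
    norm_num at hz
  induction N with
  | zero =>
    simp [cf]
  | succ N ih =>
    rw [icc_succ, Finset.sum_insert, Finset.sum_insert, Finset.sum_range_succ, Complex.add_re,
      Complex.add_re, Complex.add_re, ih]
    · have h1 : p.coeff (-((N + 1 : ℕ) : ℤ)) = Coef.conj (p.coeff ((N + 1 : ℕ) : ℤ)) := by
        have h2 := rsh_coeff p (-((N + 1 : ℕ) : ℤ))
        rw [hp, neg_neg] at h2
        exact h2
      have h3 : Coef.emb (p.coeff (-((N + 1 : ℕ) : ℤ))) * z ^ (-((N + 1 : ℕ) : ℤ)) =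
          (starRingEnd ℂ) (Coef.emb (p.coeff ((N + 1 : ℕ) : ℤ)) * z ^ ((N + 1 : ℕ) : ℤ)) := by
        rw [h1, Coef.emb_conj, map_mul, map_zpow₀, zpow_neg]
        congr 1
        have h4 : (starRingEnd ℂ) z = z⁻¹ := by
          rw [Complex.inv_def, Complex.normSq_eq_norm_sq, hz]
          simp
        rw [h4, inv_zpow]
      rw [h3, Complex.conj_re]
      have h5 : cf p (N + 1) * z ^ (N + 1) =
          2 * (Coef.emb (p.coeff ((N + 1 : ℕ) : ℤ)) * z ^ ((N + 1 : ℕ) : ℤ)) := by
        unfold cf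
        rw [if_neg (Nat.succ_ne_zero N), zpow_natCast, mul_assoc]
      rw [h5]
      have h6 : ∀ w : ℂ, (2 * w).re = 2 * w.re := by intro w; simp
      rw [h6]
      ring
    · simp only [Finset.mem_Icc]
      push_cast
      omega
    · simp only [Finset.mem_insert, Finset.mem_Icc]
      push_cast
      omega

theorem evL_icc (p : RO O) (N : ℕ) (hN : ∀ n ∈ p.coeff.support, n.natAbs ≤ N) (z : ℂ) :
    evL z p = ∑ n ∈ Finset.Icc (-(N : ℤ)) (N : ℤ), Coef.emb (p.coeff n) * z ^ n := by
  unfold evL Finsupp.sum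
  apply Finset.sum_subset
  · intro n hn
    have := hN n hn
    rw [Finset.mem_Icc]
    omega
  · intro n _ hn
    rw [Finsupp.notMem_support_iff.mp hn]
    simp only [map_zero, zero_mul]

theorem poisson_re (r : ℂ[X]) (a : ℂ) (ha : ‖a‖ < 1) :
    Real.circleAverage (fun z => (1 - ‖a‖ ^ 2) / ‖z - a‖ ^ 2 * (r.eval z).re) 0 1 =
      (r.eval a).re := by
  have hw : a ∈ Metric.ball (0 : ℂ) 1 := by simpa using ha
  have h1 : InnerProductSpace.HarmonicOnNhd (fun z : ℂ => (r.eval z).re)
      (Metric.closedBall (0 : ℂ) 1) := by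
    intro x _
    have h2 : AnalyticAt ℂ (fun z : ℂ => r.eval z) x := by
      have h3 : Differentiable ℂ (fun z : ℂ => r.eval z) := r.differentiable
      exact h3.analyticAt x
    exact h2.harmonicAt_re
  rw [← h1.circleAverage_poissonKernel_smul hw]
  apply Real.circleAverage_congr_sphere
  intro z hz
  have hz1 : ‖z‖ = 1 := by simpa using hz
  simp only [Pi.smul_apply', smul_eq_mul]
  congr 1
  unfold poissonKernel
  rw [sub_zero, sub_zero, hz1, one_pow]

theorem pmf_aux (p : RO O) (a : ℂ) (ha : ‖a‖ < 1) (hp : rsh p = p) :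
    ∃ r : ℂ[X], r.coeff 0 = Coef.emb (p.coeff 0) ∧
      (∀ z : Circle, (evR z p).re = (r.eval (z : ℂ)).re) ∧ pmn a p = (r.eval a).re ∧
      ∀ n : ℕ, r.coeff (n + 1) = 2 * Coef.emb (p.coeff ((n : ℤ) + 1)) := by
  obtain ⟨N, hN⟩ : ∃ N : ℕ, ∀ n ∈ p.coeff.support, n.natAbs ≤ N :=
    ⟨p.coeff.support.sup Int.natAbs, fun n hn => Finset.le_sup (f := Int.natAbs) hn⟩
  have hc : ∀ m : ℕ, (rr p N).coeff m = cf p m := by
    intro m
    unfold rr
    rw [Polynomial.finsetSum_coeff]
    simp only [Polynomial.coeff_monomial]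
    rw [Finset.sum_ite_eq']
    split_ifs with h
    · rfl
    · have h1 : ¬ m < N + 1 := by simpa using h
      have h2 : p.coeff (m : ℤ) = 0 := by
        by_contra h3
        have := hN (m : ℤ) (Finsupp.mem_support_iff.mpr h3)
        simp at this
        omega
      unfold cf
      rw [if_neg (by omega), h2, map_zero, mul_zero]
  have hre : ∀ z : ℂ, ‖z‖ = 1 → (evL z p).re = ((rr p N).eval z).re := by
    intro z hz
    rw [evL_icc p N hN z, rr_eval, re_sum p hp z hz N]
  refine ⟨rr p N, ?_, ?_, ?_, ?_⟩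
  · rw [hc]; simp [cf]
  · intro z
    have h1 : evR z p = evL (z : ℂ) p := evR_eq z p
    rw [h1]
    exact hre z (by simp)
  · unfold pmn
    rw [← poisson_re (rr p N) a ha]
    apply Real.circleAverage_congr_sphere
    intro z hz
    have hz1 : ‖z‖ = 1 := by simpa using hz
    simp only
    rw [hre z hz1]
  · intro n
    rw [hc]
    unfold cf
    rw [if_neg (Nat.succ_ne_zero n)]
    push_cast
    rfl

end

/-- Row E2_PMF. -/
theorem pmf : PmfS := by
  intro O _ _ _ _ p a ha hp
  exact pmf_aux p a ha hp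

end Pool.Agent.B5.H05
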